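import Pool.Agent.Helper15.FC.St2

set_option autoImplicit false

/-!
Project FC, module TAI: large values of the L-function (Soundararajan's method).
-/

namespace Pool.Agent.Helper80.FC

open Pool.Agent.Helper15.FC Polynomial

noncomputable section

/-! ### harmonic sums -/

theorem harm_Ioc {A B : ℕ} (hA : 1 ≤ A) (hAB : A ≤ B) :
    ∑ j ∈ Finset.Ioc A B, (1 : ℝ) / j ≤ Real.log B - Real.log A := by
  induction B, hAB using Nat.le_induction with
  | base => simp
  | succ B hB ih =>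
    have hB1 : 1 ≤ B := hA.trans hB
    rw [← Finset.insert_Ioc_right_eq_Ioc_add_one hB, Finset.sum_insert (by simp)]
    have hBpos : (0 : ℝ) < B := by exact_mod_cast hB1
    have hB1pos : (0 : ℝ) < ((B + 1 : ℕ) : ℝ) := by positivity
    have h1 := Real.one_sub_inv_le_log_of_pos (x := ((B + 1 : ℕ) : ℝ) / B) (by positivity)
    rw [Real.log_div hB1pos.ne' hBpos.ne', inv_div] at h1
    have h2 : (1 : ℝ) - (B : ℝ) / ((B + 1 : ℕ) : ℝ) = 1 / ((B + 1 : ℕ) : ℝ) := by
      field_simp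
      push_cast
      ring
    rw [h2] at h1
    linarith

theorem harm_zero {B : ℕ} (hB : 1 ≤ B) :
    ∑ j ∈ Finset.Ioc 0 B, (1 : ℝ) / j ≤ 1 + Real.log B := by
  have h : Finset.Ioc 0 B = Finset.Ioc 0 1 ∪ Finset.Ioc 1 B := by
    rw [Finset.Ioc_union_Ioc_eq_Ioc (by norm_num) hB]
  rw [h, Finset.sum_union (Finset.Ioc_disjoint_Ioc_of_le (le_refl 1))]
  have h1 := harm_Ioc (le_refl 1) hB
  have h2 : ∑ j ∈ Finset.Ioc 0 1, (1 : ℝ) / (j : ℕ) = 1 := by
    rw [show Finset.Ioc 0 1 = {1} from rfl, Finset.sum_singleton]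
    norm_num
  rw [h2]
  simp only [Nat.cast_one, Real.log_one, sub_zero] at h1
  linarith

theorem harm_zero' {B M : ℕ} (hB : B ≤ M) :
    ∑ j ∈ Finset.Ioc 0 B, (1 : ℝ) / j ≤ 1 + Real.log M := by
  have h0 : 0 ≤ Real.log M := Real.log_natCast_nonneg M
  rcases Nat.eq_zero_or_pos B with h | h
  · subst h
    simp only [Finset.Ioc_self, Finset.sum_empty]
    linarith
  · have h1 := harm_zero h
    have h2 : Real.log B ≤ Real.log M :=
      Real.log_le_log (by exact_mod_cast h) (by exact_mod_cast hB)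
    linarith

theorem uN_nonneg (F : Type) [Field F] [Fintype F] (N : ℕ) : 0 ≤ uN F N := by
  unfold uN
  have h1 : (1 : ℝ) ≤ Fintype.card F := by exact_mod_cast Fintype.card_pos
  have h2 : (0 : ℝ) ≤ (Fintype.card F : ℝ) - 1 := by linarith
  positivity

theorem SP_add {F : Type} [Field F] [Fintype F] (bb : ℕ → ℝ) {B M : ℕ} (h : B ≤ M)
    (Χ : F[X] → ℂ) (u : ℂ) : SP bb 0 M Χ u = SP bb 0 B Χ u + SP bb B M Χ u := by
  unfold SP
  rw [← Finset.sum_union (Finset.Ioc_disjoint_Ioc_of_le (le_refl B)),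
    Finset.Ioc_union_Ioc_eq_Ioc (Nat.zero_le B) h]

/-- the power bound: `x ^ l ≤ exp (- t l)` when `0 ≤ x ≤ exp (-t)` -/
theorem pow_bound {x t : ℝ} {l : ℕ} (hx : 0 ≤ x) (h : x ≤ Real.exp (-t)) :
    x ^ l ≤ Real.exp (-t * l) := by
  calc x ^ l ≤ (Real.exp (-t)) ^ l := pow_le_pow_left₀ hx h l
    _ = Real.exp (-t * l) := by
        rw [← Real.exp_nat_mul]
        congr 1
        ring

theorem hTAI (hPRB : StPRB) (hCNT : StCNT) (hTRV : StTRV) (hCMH : StCMH) : StTAI := by
  intro F _ _ k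
  obtain ⟨C1, hC1, hPRB⟩ := hPRB
  have hC1pos : 0 < C1 := by linarith
  obtain ⟨q, hq⟩ : ∃ q : ℝ, q = qr F := ⟨_, rfl⟩
  have hq2 : 2 ≤ q := by
    rw [hq]
    have : 2 ≤ Fintype.card F := Fintype.one_lt_card
    exact_mod_cast this
  have hlogq : 0 ≤ Real.log q := Real.log_nonneg (by linarith)
  obtain ⟨Cq, hCq⟩ : ∃ Cq : ℝ, Cq = 2 * Real.log q + 1 := ⟨_, rfl⟩
  have hCq1 : 1 ≤ Cq := by linarith
  obtain ⟨E, hE⟩ : ∃ E : ℝ, E = 8 * C1 + Cq := ⟨_, rfl⟩
  have hE9 : 9 ≤ E := by rw [hE]; linarith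
  have hEpos : 0 < E := by linarith
  obtain ⟨c5, hc5⟩ : ∃ c5 : ℝ, c5 = 1 / (4 * E) := ⟨_, rfl⟩
  have hc5pos : 0 < c5 := by rw [hc5]; positivity
  have hc51 : c5 ≤ 1 := by
    rw [hc5, div_le_one (by positivity)]
    linarith
  obtain ⟨w, hw⟩ : ∃ w : ℝ, w = 2 * (k : ℝ) + 2 := ⟨_, rfl⟩
  have hk0 : (0 : ℝ) ≤ k := Nat.cast_nonneg k
  have hw2 : 2 ≤ w := by rw [hw]; linarith
  obtain ⟨C4, hC4⟩ : ∃ C4 : ℝ, C4 = 1 + Real.log (w / c5) := ⟨_, rfl⟩
  have hwc : 1 ≤ w / c5 := by
    rw [le_div_iff₀ hc5pos]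
    linarith
  have hC41 : 1 ≤ C4 := by
    rw [hC4]
    have := Real.log_nonneg hwc
    linarith
  have hl2 : 0 < Real.log 2 := Real.log_pos (by norm_num)
  obtain ⟨a1, ha1⟩ : ∃ a1 : ℝ, a1 = 8 * C1 * ((2 + Real.log (2 * E)) / Real.log 2 + 1) := ⟨_, rfl⟩
  obtain ⟨a2, ha2⟩ : ∃ a2 : ℝ, a2 = 16 * Real.exp 1 * w * C1 ^ 2 * (1 / Real.log 2 + 1) :=
    ⟨_, rfl⟩
  obtain ⟨a3, ha3⟩ : ∃ a3 : ℝ, a3 = 1 / c5 / Real.log 2 := ⟨_, rfl⟩
  obtain ⟨a4, ha4⟩ : ∃ a4 : ℝ, a4 = 32 * c5 * C1 ^ 2 * C4 *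
    Real.exp ((2 * k + 1) / c5) / Real.log 2 := ⟨_, rfl⟩
  have hlogE : 0 ≤ Real.log (2 * E) := Real.log_nonneg (by linarith)
  have ha1' : 0 ≤ a1 := by rw [ha1]; positivity
  have ha2' : 0 ≤ a2 := by rw [ha2]; positivity
  have ha3' : 0 ≤ a3 := by rw [ha3]; positivity
  have ha4' : 0 ≤ a4 := by rw [ha4]; positivity
  refine ⟨a1 + a2 + a3 + a4 + 1, by positivity, ?_⟩
  intro N v r χ u hN hr hrN hu hv S hS hSv
  have huN := uN_nonneg F N
  -- S empty: trivial
  rcases S.eq_empty_or_nonempty with hSe | ⟨ξ0, hξ0⟩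
  · rw [hSe]
    simp only [Finset.card_empty, Nat.cast_zero]
    positivity
  have hNpos : (0 : ℝ) < N := by
    have : 0 < N := by omega
    exact_mod_cast this
  have hlogN : Real.log 2 ≤ Real.log N :=
    Real.log_le_log (by norm_num) (by exact_mod_cast hN)
  have hlogNpos : 0 < Real.log N := lt_of_lt_of_le hl2 hlogN
  -- the five consequences of the choice of C2
  have hv1 : a1 * Real.log N ≤ v := by
    refine le_trans ?_ hv
    apply mul_le_mul_of_nonneg_right _ hlogNpos.le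
    linarith
  have hv2 : a2 * Real.log N ≤ v := by
    refine le_trans ?_ hv
    apply mul_le_mul_of_nonneg_right _ hlogNpos.le
    linarith
  have hv3 : 1 / c5 ≤ v := by
    refine le_trans ?_ hv
    have h1 : 1 / c5 = a3 * Real.log 2 := by
      rw [ha3]; field_simp
    rw [h1]
    calc a3 * Real.log 2 ≤ a3 * Real.log N := mul_le_mul_of_nonneg_left hlogN ha3'
      _ ≤ (a1 + a2 + a3 + a4 + 1) * Real.log N := by
          apply mul_le_mul_of_nonneg_right _ hlogNpos.le
          linarith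
  have hv4 : 32 * c5 * C1 ^ 2 * C4 * Real.exp ((2 * k + 1) / c5) ≤ v := by
    refine le_trans ?_ hv
    have h1 : 32 * c5 * C1 ^ 2 * C4 * Real.exp ((2 * k + 1) / c5) = a4 * Real.log 2 := by
      rw [ha4]; field_simp
    rw [h1]
    calc a4 * Real.log 2 ≤ a4 * Real.log N := mul_le_mul_of_nonneg_left hlogN ha4'
      _ ≤ (a1 + a2 + a3 + a4 + 1) * Real.log N := by
          apply mul_le_mul_of_nonneg_right _ hlogNpos.le
          linarith
  have hvR1 : (1 : ℝ) ≤ v := by
    refine le_trans ?_ hv3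
    rw [le_div_iff₀ hc5pos]
    linarith
  have hvpos : (0 : ℝ) < v := by linarith
  have hv0 : 0 < v := by exact_mod_cast hvpos
  -- v ≤ Cq N
  have hvN : (v : ℝ) ≤ Cq * N := by
    have h1 := hTRV F (Hk r N χ ξ0) (r.natDegree + N) u (hCMH F r N χ ξ0 hr) hu
    have h2 := (hSv ξ0 hξ0).trans h1
    rw [← hq] at h2
    have h3 : q ^ (r.natDegree + N) ≤ q ^ (2 * N) :=
      pow_le_pow_right₀ (by linarith) (by omega)
    have h4 : q ^ (2 * N) = Real.exp (2 * N * Real.log q) := by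
      rw [← Real.rpow_natCast, Real.rpow_def_of_pos (by linarith)]
      congr 1
      push_cast
      ring
    have h5 : (v : ℝ) ≤ 2 * N * Real.log q := by
      rw [← Real.exp_le_exp, ← h4]
      exact h2.trans h3
    have h6 : Cq * N = 2 * N * Real.log q + N := by rw [hCq]; ring
    rw [h6]
    linarith
  -- K
  obtain ⟨D, hD⟩ : ∃ D : ℕ, D = r.natDegree + N := ⟨_, rfl⟩
  have hDN : (D : ℝ) ≤ 2 * N := by
    have : D ≤ 2 * N := by omega
    exact_mod_cast this
  have hDpos : (0 : ℝ) < D := by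
    have : 0 < D := by omega
    exact_mod_cast this
  obtain ⟨K, hK⟩ : ∃ K : ℕ, K = ⌈4 * C1 * D / v⌉₊ := ⟨_, rfl⟩
  have hKpos : 0 < K := by
    rw [hK, Nat.ceil_pos]
    positivity
  have hKpos' : (0 : ℝ) < K := by exact_mod_cast hKpos
  have hK1 : 4 * C1 * D / v ≤ K := by rw [hK]; exact Nat.le_ceil _
  have hK2 : (K : ℝ) ≤ E * N / v := by
    have h1 : (K : ℝ) < 4 * C1 * D / v + 1 := by
      rw [hK]
      exact Nat.ceil_lt_add_one (by positivity)
    have h2 : 4 * C1 * D / v ≤ 8 * C1 * N / v := by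
      apply div_le_div_of_nonneg_right _ hvpos.le
      calc 4 * C1 * D ≤ 4 * C1 * (2 * N) := mul_le_mul_of_nonneg_left hDN (by positivity)
        _ = 8 * C1 * N := by ring
    have h3 : 1 ≤ Cq * N / v := by
      rw [le_div_iff₀ hvpos]
      linarith
    have h4 : E * N / v = 8 * C1 * N / v + Cq * N / v := by
      rw [hE]; ring
    linarith
  have h2K : 2 * (K : ℝ) ≤ N / (2 * c5 * v) := by
    have h1 : (N : ℝ) / (2 * c5 * v) = 2 * (E * N / v) := by
      rw [hc5]
      field_simp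
      ring
    linarith
  have hDK : C1 * D / K ≤ v / 4 := by
    rw [div_le_iff₀ hKpos']
    rw [div_le_iff₀ hvpos] at hK1
    linarith
  have hlogK : 2 * C1 * (2 + Real.log (2 * K)) ≤ v / 4 := by
    have h1 : 2 * (K : ℝ) ≤ 2 * E * N := by
      have h2 : E * N / v ≤ E * N := div_le_self (by positivity) hvR1
      linarith
    have h2 : Real.log (2 * K) ≤ Real.log (2 * E) + Real.log N := by
      rw [← Real.log_mul (by positivity) hNpos.ne']
      exact Real.log_le_log (by positivity) h1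
    have h3 : 8 * C1 * (2 + Real.log (2 * E) + Real.log N) ≤ a1 * Real.log N := by
      rw [ha1]
      have h4 : 2 + Real.log (2 * E) ≤ (2 + Real.log (2 * E)) / Real.log 2 * Real.log N := by
        rw [div_mul_eq_mul_div, le_div_iff₀ hl2]
        apply mul_le_mul_of_nonneg_left hlogN
        linarith
      have h5 : 8 * C1 * ((2 + Real.log (2 * E)) / Real.log 2 + 1) * Real.log N
          = 8 * C1 * ((2 + Real.log (2 * E)) / Real.log 2 * Real.log N + Real.log N) := by ring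
      rw [h5]
      apply mul_le_mul_of_nonneg_left _ (by positivity)
      linarith
    have h4 : 2 * C1 * (2 + Real.log (2 * K)) ≤ 2 * C1 * (2 + Real.log (2 * E) + Real.log N) := by
      apply mul_le_mul_of_nonneg_left _ (by positivity)
      linarith
    linarith
  obtain ⟨bb, hbb, hPRB⟩ := hPRB K hKpos
  -- the prime sum is large
  have hlarge : ∀ ξ ∈ S, (v : ℝ) / 2 ≤ ‖SP bb 0 (2 * K) (Hk r N χ ξ) u‖ := by
    intro ξ hξ
    have hnt : NTx ξ := by
      classical
      have h1 := hS hξ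
      unfold XiNT at h1
      rw [Finset.mem_filter] at h1
      exact h1.2
    have h1 := hPRB F r N χ ξ u hr hnt hu
    have h2 := (hSv ξ hξ).trans h1
    rw [Real.exp_le_exp, ← hD] at h2
    linarith
  -- the splitting point
  obtain ⟨l1, hl1⟩ : ∃ l1 : ℕ, l1 = (2 * k + 2) * v := ⟨_, rfl⟩
  have hl1pos : 0 < l1 := by rw [hl1]; positivity
  have hl1R : (l1 : ℝ) = w * v := by rw [hl1, hw]; push_cast; ring
  obtain ⟨B1, hB1⟩ : ∃ B1 : ℕ, B1 = min (2 * K) (N / l1) := ⟨_, rfl⟩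
  have hB1K : B1 ≤ 2 * K := by rw [hB1]; exact min_le_left _ _
  have hB1N : B1 ≤ N / l1 := by rw [hB1]; exact min_le_right _ _
  have hlB : l1 * B1 ≤ N := by
    calc l1 * B1 ≤ l1 * (N / l1) := Nat.mul_le_mul_left _ hB1N
      _ ≤ N := Nat.mul_div_le N l1
  obtain ⟨S1, hS1⟩ : ∃ S1 : Finset (MulChar (TN F N) ℂ),
      S1 = S.filter (fun ξ => (v : ℝ) / 4 ≤ ‖SP bb 0 B1 (Hk r N χ ξ) u‖) := ⟨_, rfl⟩
  obtain ⟨S2, hS2⟩ : ∃ S2 : Finset (MulChar (TN F N) ℂ),
      S2 = S.filter (fun ξ => (v : ℝ) / 4 ≤ ‖SP bb B1 (2 * K) (Hk r N χ ξ) u‖) := ⟨_, rfl⟩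
  have hcover : S.card ≤ S1.card + S2.card := by
    classical
    refine le_trans (Finset.card_le_card ?_) (Finset.card_union_le S1 S2)
    intro ξ hξ
    rw [Finset.mem_union, hS1, hS2, Finset.mem_filter, Finset.mem_filter]
    by_contra hcon
    push Not at hcon
    have h1 := hcon.1 hξ
    have h2 := hcon.2 hξ
    have h3 := hlarge ξ hξ
    rw [SP_add bb hB1K] at h3
    have h4 := norm_add_le (SP bb 0 B1 (Hk r N χ ξ) u) (SP bb B1 (2 * K) (Hk r N χ ξ) u)
    linarith
  have hv4pos : (0 : ℝ) < v / 4 := by positivity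
  -- small primes
  have hcard1 : (S1.card : ℝ) ≤ uN F N * Real.exp (-(2 * k + 1) * v) := by
    have h1 := hCNT F r N 0 B1 l1 χ u bb C1 ((v : ℝ) / 4) hr hlB hu hbb hv4pos S1 (by
      intro ξ hξ
      rw [hS1, Finset.mem_filter] at hξ
      exact hξ.2)
    refine h1.trans (mul_le_mul_of_nonneg_left ?_ huN)
    have hsum : ∑ j ∈ Finset.Ioc 0 B1, (1 : ℝ) / j ≤ 1 + Real.log N :=
      harm_zero' (hB1N.trans (Nat.div_le_self N l1))
    have hsum0 : 0 ≤ ∑ j ∈ Finset.Ioc 0 B1, (1 : ℝ) / j := Finset.sum_nonneg fun j _ => by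
      positivity
    have hbase : l1 * C1 ^ 2 * (∑ j ∈ Finset.Ioc 0 B1, (1 : ℝ) / j) / (v / 4) ^ 2
        ≤ Real.exp (-1) := by
      have h2 : l1 * C1 ^ 2 * (∑ j ∈ Finset.Ioc 0 B1, (1 : ℝ) / j) / (v / 4) ^ 2
          ≤ l1 * C1 ^ 2 * (1 + Real.log N) / (v / 4) ^ 2 := by
        apply div_le_div_of_nonneg_right _ (by positivity)
        exact mul_le_mul_of_nonneg_left hsum (by positivity)
      refine h2.trans ?_
      rw [hl1R, Real.exp_neg, div_le_iff₀ (by positivity)]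
      have h3 : 16 * Real.exp 1 * w * C1 ^ 2 * (1 + Real.log N) ≤ v := by
        refine le_trans ?_ hv2
        rw [ha2]
        have h4 : 1 + Real.log N ≤ (1 / Real.log 2 + 1) * Real.log N := by
          have h5 : 1 ≤ 1 / Real.log 2 * Real.log N := by
            rw [div_mul_eq_mul_div, one_mul, le_div_iff₀ hl2]
            linarith
          linarith
        calc 16 * Real.exp 1 * w * C1 ^ 2 * (1 + Real.log N)
            ≤ 16 * Real.exp 1 * w * C1 ^ 2 * ((1 / Real.log 2 + 1) * Real.log N) :=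
              mul_le_mul_of_nonneg_left h4 (by positivity)
          _ = 16 * Real.exp 1 * w * C1 ^ 2 * (1 / Real.log 2 + 1) * Real.log N := by ring
      have h4 : w * v * C1 ^ 2 * (1 + Real.log N) * Real.exp 1 ≤ (v / 4) ^ 2 := by
        calc w * v * C1 ^ 2 * (1 + Real.log N) * Real.exp 1
            = (16 * Real.exp 1 * w * C1 ^ 2 * (1 + Real.log N)) * v / 16 := by ring
          _ ≤ (v : ℝ) * v / 16 := by
              apply div_le_div_of_nonneg_right _ (by norm_num)
              exact mul_le_mul_of_nonneg_right h3 hvpos.le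
          _ = ((v : ℝ) / 4) ^ 2 := by ring
      rw [inv_mul_eq_div, le_div_iff₀ (Real.exp_pos 1)]
      exact h4
    have hbase0 : 0 ≤ l1 * C1 ^ 2 * (∑ j ∈ Finset.Ioc 0 B1, (1 : ℝ) / j) / (v / 4) ^ 2 := by
      positivity
    refine (pow_bound hbase0 hbase).trans ?_
    rw [Real.exp_le_exp, hl1R, hw]
    have h7 : (2 * (k : ℝ) + 2) * v = (2 * k + 1) * v + v := by ring
    linarith
  -- large primes
  obtain ⟨l2, hl2'⟩ : ∃ l2 : ℕ, l2 = ⌈c5 * v⌉₊ := ⟨_, rfl⟩
  have hl2a : c5 * v ≤ l2 := by rw [hl2']; exact Nat.le_ceil _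
  have hl2b : (l2 : ℝ) ≤ 2 * c5 * v := by
    have h1 : (l2 : ℝ) < c5 * v + 1 := by
      rw [hl2']
      exact Nat.ceil_lt_add_one (by positivity)
    have h2 : 1 ≤ c5 * v := by
      rw [div_le_iff₀ hc5pos] at hv3
      linarith
    linarith
  have hlK : l2 * (2 * K) ≤ N := by
    have h1 : (l2 : ℝ) * (2 * K) ≤ N := by
      calc (l2 : ℝ) * (2 * K) ≤ 2 * c5 * v * (N / (2 * c5 * v)) :=
            mul_le_mul hl2b h2K (by positivity) (by positivity)
        _ = N := by field_simp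
    exact_mod_cast h1
  have hsum2 : ∑ j ∈ Finset.Ioc B1 (2 * K), (1 : ℝ) / j ≤ C4 := by
    rw [hC4]
    have hlog0 := Real.log_nonneg hwc
    have h2Kpos : (0 : ℝ) < 2 * K := by positivity
    rcases le_or_gt l1 N with hcase | hcase
    · -- N / l1 ≥ 1
      rcases le_or_gt (2 * K) (N / l1) with h | h
      · have : B1 = 2 * K := by rw [hB1]; exact min_eq_left h
        rw [this]
        simp only [Finset.Ioc_self, Finset.sum_empty]
        linarith
      · have hB : B1 = N / l1 := by rw [hB1]; exact min_eq_right h.le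
        have hB11 : 1 ≤ B1 := by
          rw [hB]
          exact (Nat.one_le_div_iff hl1pos).2 hcase
        have h1 := harm_Ioc hB11 hB1K
        have hB1pos : (0 : ℝ) < B1 := by exact_mod_cast hB11
        have h3 : (N : ℝ) ≤ 2 * (w * v) * B1 := by
          have h4 : N < l1 * (B1 + 1) := by
            rw [hB, mul_comm]
            exact Nat.lt_mul_of_div_lt (Nat.lt_succ_self _) hl1pos
          have h5 : N ≤ 2 * l1 * B1 := by
            calc N ≤ l1 * (B1 + 1) := h4.le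
              _ ≤ l1 * (2 * B1) := Nat.mul_le_mul_left _ (by omega)
              _ = 2 * l1 * B1 := by ring
          have h6 : (N : ℝ) ≤ 2 * l1 * B1 := by exact_mod_cast h5
          rwa [hl1R] at h6
        have h4 : Real.log ((2 * K : ℕ) : ℝ) - Real.log B1 ≤ Real.log (w / c5) := by
          rw [← Real.log_div (by push_cast; positivity) hB1pos.ne']
          apply Real.log_le_log (by push_cast; positivity)
          rw [div_le_iff₀ hB1pos]
          push_cast
          calc 2 * (K : ℝ) ≤ N / (2 * c5 * v) := h2K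
            _ ≤ 2 * (w * v) * B1 / (2 * c5 * v) := div_le_div_of_nonneg_right h3 (by positivity)
            _ = w / c5 * B1 := by field_simp
        linarith
    · have hB : B1 = 0 := by
        have : N / l1 = 0 := Nat.div_eq_of_lt hcase
        rw [this] at hB1N
        omega
      rw [hB]
      have h1 := harm_zero (B := 2 * K) (by omega)
      have h3 : (N : ℝ) ≤ w * v := by
        have : (N : ℝ) ≤ l1 := by exact_mod_cast hcase.le
        rwa [hl1R] at this
      have h4 : Real.log ((2 * K : ℕ) : ℝ) ≤ Real.log (w / c5) := by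
        apply Real.log_le_log (by push_cast; positivity)
        push_cast
        calc 2 * (K : ℝ) ≤ N / (2 * c5 * v) := h2K
          _ ≤ w * v / (2 * c5 * v) := div_le_div_of_nonneg_right h3 (by positivity)
          _ = (w / c5) / 2 := by field_simp
          _ ≤ w / c5 := by linarith
      linarith
  have hcard2 : (S2.card : ℝ) ≤ uN F N * Real.exp (-(2 * k + 1) * v) := by
    have h1 := hCNT F r N B1 (2 * K) l2 χ u bb C1 ((v : ℝ) / 4) hr hlK hu hbb hv4pos S2 (by
      intro ξ hξ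
      rw [hS2, Finset.mem_filter] at hξ
      exact hξ.2)
    refine h1.trans (mul_le_mul_of_nonneg_left ?_ huN)
    have hsum0 : 0 ≤ ∑ j ∈ Finset.Ioc B1 (2 * K), (1 : ℝ) / j := Finset.sum_nonneg fun j _ => by
      positivity
    have hbase : l2 * C1 ^ 2 * (∑ j ∈ Finset.Ioc B1 (2 * K), (1 : ℝ) / j) / (v / 4) ^ 2
        ≤ Real.exp (-((2 * k + 1) / c5)) := by
      have h2 : l2 * C1 ^ 2 * (∑ j ∈ Finset.Ioc B1 (2 * K), (1 : ℝ) / j) / (v / 4) ^ 2
          ≤ 2 * c5 * v * C1 ^ 2 * C4 / (v / 4) ^ 2 := by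
        apply div_le_div_of_nonneg_right _ (by positivity)
        apply mul_le_mul _ hsum2 hsum0 (by positivity)
        exact mul_le_mul_of_nonneg_right hl2b (by positivity)
      refine h2.trans ?_
      rw [Real.exp_neg, div_le_iff₀ (by positivity), inv_mul_eq_div,
        le_div_iff₀ (Real.exp_pos _)]
      calc 2 * c5 * v * C1 ^ 2 * C4 * Real.exp ((2 * k + 1) / c5)
          = (32 * c5 * C1 ^ 2 * C4 * Real.exp ((2 * k + 1) / c5)) * v / 16 := by ring
        _ ≤ (v : ℝ) * v / 16 := by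
            apply div_le_div_of_nonneg_right _ (by norm_num)
            exact mul_le_mul_of_nonneg_right hv4 hvpos.le
        _ = ((v : ℝ) / 4) ^ 2 := by ring
    have hbase0 : 0 ≤ l2 * C1 ^ 2 * (∑ j ∈ Finset.Ioc B1 (2 * K), (1 : ℝ) / j) / (v / 4) ^ 2 := by
      positivity
    refine (pow_bound hbase0 hbase).trans ?_
    rw [Real.exp_le_exp]
    have h3 : (2 * (k : ℝ) + 1) * v ≤ (2 * k + 1) / c5 * l2 := by
      calc (2 * (k : ℝ) + 1) * v = (2 * k + 1) / c5 * (c5 * v) := by field_simp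
        _ ≤ (2 * k + 1) / c5 * l2 := mul_le_mul_of_nonneg_left hl2a (by positivity)
    linarith
  have hfin : (S.card : ℝ) ≤ S1.card + S2.card := by exact_mod_cast hcover
  linarith

end

end Pool.Agent.Helper80.FC
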